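import Pool.Agent.H65.CM4.Targets1

/-!
# Fourth moment over totally real fields, row CLF: the number of the pairs of a lattice and a frequency
-/

set_option autoImplicit false

open MeasureTheory Set Filter NumberField NumberField.InfinitePlace Pool.Agent.H65.CM4
open scoped Real

namespace Pool.Agent.H19.CM4

section

variable {k : Type} [Field k] [NumberField k] [IsTotallyReal k]

omit [IsTotallyReal k] in
theorem finite_quot (f : Ideal (𝓞 k)) (hf : f ≠ ⊥) : Finite (𝓞 k ⧸ f) := by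
  apply Nat.finite_of_card_ne_zero
  have h1 : Ideal.absNorm f = Nat.card (𝓞 k ⧸ f) := rfl
  rw [← h1]
  exact fun h => hf (Ideal.absNorm_eq_zero_iff.1 h)

omit [IsTotallyReal k] in
/-- the number of the units modulo a prime ideal -/
theorem card_units_max (P : Ideal (𝓞 k)) (hP : P.IsMaximal) :
    Nat.card (𝓞 k ⧸ P)ˣ = Ideal.absNorm P - 1 := by
  let _ := Ideal.Quotient.field P
  exact Nat.card_units (𝓞 k ⧸ P)

omit [IsTotallyReal k] in
theorem mem_pf {f P : Ideal (𝓞 k)} (h : P ∈ pf f) : Prime P ∧ P.IsPrime ∧ P ≠ ⊥ := by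
  classical
  unfold pf at h
  have h1 : Prime P := UniqueFactorizationMonoid.prime_of_normalized_factor P
    (Multiset.mem_toFinset.1 h)
  exact ⟨h1, Ideal.isPrime_of_prime h1, h1.ne_zero⟩

omit [IsTotallyReal k] in
/-- the number of the units modulo a squarefree ideal -/
theorem card_units_sqf (f : Ideal (𝓞 k)) (hf : f ≠ ⊥) (hsq : Squarefree f) :
    Nat.card (𝓞 k ⧸ f)ˣ = ∏ P ∈ pf f, (Ideal.absNorm P - 1) := by
  classical
  have hprod : ∏ P ∈ pf f, P ^ 1 = f := by
    have hnd : (UniqueFactorizationMonoid.normalizedFactors f).Nodup :=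
      (UniqueFactorizationMonoid.squarefree_iff_nodup_normalizedFactors hf).1 hsq
    have h1 : ∏ P ∈ pf f, P ^ 1 = (UniqueFactorizationMonoid.normalizedFactors f).prod := by
      unfold pf
      rw [Finset.prod_congr rfl fun P _ => pow_one P, Finset.prod_eq_multiset_prod,
        Multiset.toFinset_val, hnd.dedup, Multiset.map_id']
    rw [h1]
    exact associated_iff_eq.1 (UniqueFactorizationMonoid.prod_normalizedFactors hf)
  have e := IsDedekindDomain.quotientEquivPiOfFinsetProdEq f (fun P : Ideal (𝓞 k) => P)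
    (fun _ => 1) (s := pf f) (fun P hP => (mem_pf hP).1) (fun P _ P' _ h => h) hprod
  have e2 : (𝓞 k ⧸ f)ˣ ≃* ∀ P : pf f, (𝓞 k ⧸ (P : Ideal (𝓞 k)) ^ 1)ˣ :=
    (Units.mapEquiv e.toMulEquiv).trans MulEquiv.piUnits
  rw [Nat.card_congr e2.toEquiv, Nat.card_pi]
  rw [← Finset.prod_coe_sort (pf f)]
  refine Finset.prod_congr rfl fun P _ => ?_
  have h1 := mem_pf P.2
  have h2 : ((P : Ideal (𝓞 k)) ^ 1).IsMaximal := by
    rw [pow_one]
    exact h1.2.1.isMaximal h1.2.2
  rw [card_units_max _ h2, pow_one]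

omit [IsTotallyReal k] in
/-- the number of the lattices times the number of the units -/
theorem card_Ls_units (hFLS : T_FLS k) (f : Ideal (𝓞 k)) (hf : f ≠ ⊥) :
    (Ls f).card * Nat.card (𝓞 k ⧸ f)ˣ ≤ Ideal.absNorm f ^ 2 := by
  classical
  have hfin := finite_quot f hf
  have hex : ∀ L : Ls f, ∃ u : V2 k, Cop f u ∧ (L : La k) = Lw f u := fun L =>
    (hFLS f L hf).1.1 L.2
  choose u hu hL using hex
  let g : (Ls f) × (𝓞 k ⧸ f)ˣ → (𝓞 k ⧸ f) × (𝓞 k ⧸ f) := fun p =>
    ((p.2 : 𝓞 k ⧸ f) * Ideal.Quotient.mk f (u p.1).1, (p.2 : 𝓞 k ⧸ f) * Ideal.Quotient.mk f (u p.1).2)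
  have hg : Function.Injective g := by
    rintro ⟨L, x⟩ ⟨L', y⟩ h
    obtain ⟨h1, h2⟩ := Prod.mk.inj h
    simp only at h1 h2
    have hmem : ∀ (L : Ls f) (z : (𝓞 k ⧸ f)ˣ) (v : V2 k), v ∈ (L : La k) ↔
        (z : 𝓞 k ⧸ f) * Ideal.Quotient.mk f (u L).1 * Ideal.Quotient.mk f v.2 -
          (z : 𝓞 k ⧸ f) * Ideal.Quotient.mk f (u L).2 * Ideal.Quotient.mk f v.1 = 0 := by
      intro L z v
      have e1 : v ∈ (L : La k) ↔ det (u L) v ∈ f := by
        rw [hL L]
        exact Iff.rfl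
      rw [e1, ← Ideal.Quotient.eq_zero_iff_mem]
      unfold det
      rw [map_sub, map_mul, map_mul]
      have e2 : (z : 𝓞 k ⧸ f) * Ideal.Quotient.mk f (u L).1 * Ideal.Quotient.mk f v.2 -
          (z : 𝓞 k ⧸ f) * Ideal.Quotient.mk f (u L).2 * Ideal.Quotient.mk f v.1 =
          (z : 𝓞 k ⧸ f) * (Ideal.Quotient.mk f (u L).1 * Ideal.Quotient.mk f v.2 -
            Ideal.Quotient.mk f (u L).2 * Ideal.Quotient.mk f v.1) := by ring
      rw [e2, Units.mul_right_eq_zero]
    have hLL : L = L' := by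
      apply Subtype.ext
      ext v
      rw [hmem L x v, hmem L' y v, h1, h2]
    subst hLL
    have hxy : (x : 𝓞 k ⧸ f) = y := by
      have hc : (1 : 𝓞 k) ∈ Ideal.span {(u L).1, (u L).2} ⊔ f := by
        rw [show Ideal.span {(u L).1, (u L).2} ⊔ f = ⊤ from hu L]
        exact Submodule.mem_top
      obtain ⟨s, hs, i, hi, hsi⟩ := Submodule.mem_sup.1 hc
      obtain ⟨a, b, hab⟩ := Ideal.mem_span_pair.1 hs
      have h3 : Ideal.Quotient.mk f a * Ideal.Quotient.mk f (u L).1 +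
          Ideal.Quotient.mk f b * Ideal.Quotient.mk f (u L).2 = 1 := by
        have h4 : Ideal.Quotient.mk f i = 0 := Ideal.Quotient.eq_zero_iff_mem.2 hi
        have h5 := congrArg (Ideal.Quotient.mk f) hsi
        rw [map_add, h4, add_zero, map_one, ← hab, map_add, map_mul, map_mul] at h5
        exact h5
      calc (x : 𝓞 k ⧸ f) = (x : 𝓞 k ⧸ f) * (Ideal.Quotient.mk f a * Ideal.Quotient.mk f (u L).1 +
            Ideal.Quotient.mk f b * Ideal.Quotient.mk f (u L).2) := by rw [h3, mul_one]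
        _ = Ideal.Quotient.mk f a * ((x : 𝓞 k ⧸ f) * Ideal.Quotient.mk f (u L).1) +
            Ideal.Quotient.mk f b * ((x : 𝓞 k ⧸ f) * Ideal.Quotient.mk f (u L).2) := by ring
        _ = Ideal.Quotient.mk f a * ((y : 𝓞 k ⧸ f) * Ideal.Quotient.mk f (u L).1) +
            Ideal.Quotient.mk f b * ((y : 𝓞 k ⧸ f) * Ideal.Quotient.mk f (u L).2) := by rw [h1, h2]
        _ = (y : 𝓞 k ⧸ f) * (Ideal.Quotient.mk f a * Ideal.Quotient.mk f (u L).1 +
            Ideal.Quotient.mk f b * Ideal.Quotient.mk f (u L).2) := by ring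
        _ = y := by rw [h3, mul_one]
    rw [Units.ext hxy]
  have hcard := Nat.card_le_card_of_injective g hg
  rw [Nat.card_prod, Nat.card_prod, Nat.card_eq_fintype_card, Fintype.card_coe] at hcard
  have h1 : Ideal.absNorm f = Nat.card (𝓞 k ⧸ f) := rfl
  rw [h1, sq]
  exact hcard

end

variable (k : Type) [Field k] [NumberField k] [IsTotallyReal k]

theorem pf_CLF (hFLS : T_FLS k) (_hCRT : T_CRT k) (hRAM : T_RAM k) : T_CLF k := by
  classical
  intro R b f hb hf hsq hfb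
  have hcop : Cop f ((1, 0) : V2 k) := by
    unfold Cop
    have h1 : Ideal.span {((1, 0) : V2 k).1, ((1, 0) : V2 k).2} = (⊤ : Ideal (𝓞 k)) := by
      rw [Ideal.eq_top_iff_one]
      exact Ideal.subset_span (by simp)
    rw [h1, top_sup_eq]
  have h1 := (hRAM R b f (1, 0) 0 hb hf hsq hfb hcop).2
  have h2 : ∑ a ∈ Rp R f, ee (0 : QF k) (sq2 a ((1, 0) : V2 k)) = ((Rp R f).card : ℂ) := by
    have h3 : ∀ a ∈ Rp R f, ee (0 : QF k) (sq2 a ((1, 0) : V2 k)) = 1 := by
      intro a _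
      unfold ee
      have e1 : (((0 : QF k).1 : 𝓞 k) : k) = 0 := rfl
      have e2 : (((0 : QF k).2.1 : 𝓞 k) : k) = 0 := rfl
      have e3 : (((0 : QF k).2.2 : 𝓞 k) : k) = 0 := rfl
      simp only [e1, e2, e3, map_zero, zero_mul, add_zero, Finset.sum_const_zero,
        Complex.ofReal_zero, mul_zero, Complex.exp_zero]
    rw [Finset.sum_congr rfl h3, Finset.sum_const, nsmul_eq_mul, mul_one]
  have h4 : Rn f (Lw f ((1, 0) : V2 k)) (0 : QF k) =
      ((∏ P ∈ pf f, (Ideal.absNorm P - 1) : ℕ) : ℝ) := by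
    unfold Rn
    push_cast
    refine Finset.prod_congr rfl fun P hP => ?_
    have h5 : Dv P (Lw f ((1, 0) : V2 k)) (0 : QF k) := by
      intro u _
      have : val (0 : QF k) u = 0 := by simp [val]
      rw [this]
      exact P.zero_mem
    rw [if_pos h5]
    have h6 : 1 ≤ Ideal.absNorm P := by
      have h7 := (mem_pf hP).2.2
      exact Nat.one_le_iff_ne_zero.2 fun h => h7 (Ideal.absNorm_eq_zero_iff.1 h)
    rw [Nat.cast_sub h6, Nat.cast_one]
    rfl
  have h5 : (Rp R f).card = ∏ P ∈ pf f, (Ideal.absNorm P - 1) := by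
    rw [h2, h4] at h1
    exact_mod_cast h1.symm
  refine ⟨?_, ?_⟩
  · rw [h5, ← card_units_sqf f hf hsq]
    exact card_Ls_units hFLS f hf
  · rw [h5, ← card_units_sqf f hf hsq]
    have := finite_quot f hf
    exact Nat.card_pos

end Pool.Agent.H19.CM4
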