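import Pool.Agent.H65.CM4.Targets1

/-!
# Fourth moment over totally real fields, row MIN: the shortest vector of a lattice
-/

set_option autoImplicit false

open MeasureTheory Set Filter NumberField NumberField.InfinitePlace Pool.Agent.H65.CM4
open scoped Real

namespace Pool.Agent.H19.CM4

section

variable {k : Type} [Field k] [NumberField k] [IsTotallyReal k]

omit [NumberField k] in
theorem nr_smul (r : ℝ) (v : Pl k) (c : 𝓞 k) (w : V2 k) :
    nr r v (c • w) = rv v (c : k) ^ 2 * nr r v w := by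
  have h1 : (((c • w).1 : 𝓞 k) : k) = (c : k) * (w.1 : k) := rfl
  have h2 : (((c • w).2 : 𝓞 k) : k) = (c : k) * (w.2 : k) := rfl
  unfold nr
  rw [h1, h2, map_mul, map_mul]
  ring

omit [NumberField k] in
theorem nr_pos' (r : ℝ) (v : Pl k) (w : V2 k) (hr : 0 < r) (hw : w ≠ 0) : 0 < nr r v w := by
  have hinj : Function.Injective (rv v) := (rv v).injective
  have hcoe : ∀ x : 𝓞 k, x ≠ 0 → rv v (x : k) ≠ 0 := by
    intro x hx h0
    apply hx
    have h1 : (x : k) = 0 := by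
      apply hinj
      rw [h0, map_zero]
    exact RingOfIntegers.coe_eq_zero_iff.1 h1
  unfold nr
  by_cases h1 : w.1 = 0
  · have h2 : w.2 ≠ 0 := by
      intro h2
      exact hw (Prod.ext h1 h2)
    have h3 : 0 < rv v (w.2 : k) ^ 2 := by
      have := hcoe _ h2
      positivity
    have h4 : 0 ≤ rv v (w.1 : k) ^ 2 / r := by positivity
    have h5 := mul_pos hr h3
    linarith
  · have h3 : 0 < rv v (w.1 : k) ^ 2 := by
      have := hcoe _ h1
      positivity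
    have h4 : 0 < rv v (w.1 : k) ^ 2 / r := by positivity
    have h5 : 0 ≤ r * rv v (w.2 : k) ^ 2 := by positivity
    linarith

/-- the multiplication by a unit does not change the norm -/
theorem nn_unit (hEMB : T_EMB k) (r : ℝ) (u : (𝓞 k)ˣ) (w : V2 k) :
    nn r ((u : 𝓞 k) • w) = nn r w := by
  obtain ⟨-, -, -, -, -, -, -, h1, -⟩ := hEMB
  have h2 := h1 u
  unfold nn
  have h3 : ∀ v : Pl k, nr r v ((u : 𝓞 k) • w) = |rv v ((u : 𝓞 k) : k)| ^ 2 * nr r v w := by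
    intro v
    rw [nr_smul, sq_abs]
  rw [Finset.prod_congr rfl fun v _ => h3 v, Finset.prod_mul_distrib, Finset.prod_pow]
  unfold Nr at h2
  rw [h2]
  ring

/-- finitely many integers in a box -/
theorem fin_box (hEMB : T_EMB k) (hBXC : T_BXC k) (B : ℝ) :
    {x : 𝓞 k | ∀ v : Pl k, |rv v (x : k)| ≤ B}.Finite := by
  classical
  obtain ⟨-, -, -, -, -, -, -, -, -, h1, -⟩ := hEMB
  obtain ⟨C, hC1, hC⟩ := hBXC
  by_contra hinf
  rw [← Set.Infinite] at hinf
  by_cases hB : 0 ≤ B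
  swap
  · obtain ⟨x, hx⟩ := hinf.nonempty
    obtain ⟨v⟩ : Nonempty (Pl k) := inferInstance
    have := hx v
    have h2 := abs_nonneg (rv v (x : k))
    linarith
  obtain ⟨N, hN⟩ := exists_nat_gt (C * (1 + (∏ _v : Pl k, (2 * B)) / 1))
  obtain ⟨t, ht, htN⟩ := hinf.exists_subset_card_eq N
  have hinj : Function.Injective (fun x : 𝓞 k => (x : k)) := RingOfIntegers.coe_injective
  have h3 := hC 1 (fun _ => 2 * B) (t.image (fun x : 𝓞 k => (x : k))) one_pos
    (fun v => by positivity) ?_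
  · rw [Finset.card_image_of_injective _ hinj, htN] at h3
    linarith
  · intro x hx y hy hxy
    obtain ⟨x', hx', rfl⟩ := Finset.mem_image.1 hx
    obtain ⟨y', hy', rfl⟩ := Finset.mem_image.1 hy
    have hne : x' - y' ≠ 0 := by
      intro h
      exact hxy (by rw [sub_eq_zero.1 h])
    refine ⟨h1 (x' - y') hne, fun v => ?_⟩
    have h4 := ht hx' v
    have h5 := ht hy' v
    change |rv v ((x' : k) - (y' : k))| ≤ 2 * B
    rw [map_sub]
    calc |rv v (x' : k) - rv v (y' : k)| ≤ |rv v (x' : k)| + |rv v (y' : k)| := abs_sub _ _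
      _ ≤ 2 * B := by linarith

/-- finitely many balanced vectors -/
theorem fin_bal (hEMB : T_EMB k) (hBXC : T_BXC k) (r B : ℝ) (hr : 0 < r) :
    {u : V2 k | ∀ v : Pl k, nr r v u ≤ B}.Finite := by
  have h1 := (fin_box hEMB hBXC (Real.sqrt (r * B))).prod (fin_box hEMB hBXC (Real.sqrt (B / r)))
  refine h1.subset ?_
  intro u hu
  refine ⟨fun v => ?_, fun v => ?_⟩
  · have h2 := hu v
    unfold nr at h2
    have h3 : 0 ≤ r * rv v (u.2 : k) ^ 2 := by positivity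
    have h4 : rv v (u.1 : k) ^ 2 / r ≤ B := by linarith
    rw [div_le_iff₀ hr] at h4
    apply Real.abs_le_sqrt
    linarith
  · have h2 := hu v
    unfold nr at h2
    have h3 : 0 ≤ rv v (u.1 : k) ^ 2 / r := by positivity
    apply Real.abs_le_sqrt
    rw [le_div_iff₀ hr]
    linarith

/-- every vector is balanced after the multiplication by a unit -/
theorem bal_vec (hBAL : T_BAL k) (r K : ℝ) (hr : 0 < r) :
    ∃ B : ℝ, ∀ w : V2 k, w ≠ 0 → nn r w ≤ K → ∃ u : (𝓞 k)ˣ, ∀ v : Pl k,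
      nr r v ((u : 𝓞 k) • w) ≤ B := by
  obtain ⟨C, hC1, hC⟩ := hBAL
  refine ⟨(C * (Real.sqrt K) ^ (1 / (dg k : ℝ))) ^ 2, ?_⟩
  intro w hw hK
  obtain ⟨u, hu⟩ := hC (fun v => Real.sqrt (nr r v w)) fun v => Real.sqrt_pos.2 (nr_pos' r v w hr hw)
  refine ⟨u, fun v => ?_⟩
  have h1 := (hu v).2
  have h2 : ∏ v' : Pl k, Real.sqrt (nr r v' w) = Real.sqrt (nn r w) := by
    unfold nn
    rw [Real.sqrt_prod]
    intro v _
    exact (nr_pos' r v w hr hw).le
  simp only [h2] at h1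
  have h3 : Real.sqrt (nn r w) ^ (1 / (dg k : ℝ)) ≤ Real.sqrt K ^ (1 / (dg k : ℝ)) :=
    Real.rpow_le_rpow (Real.sqrt_nonneg _) (Real.sqrt_le_sqrt hK) (by positivity)
  have h4 : |rv v ((u : 𝓞 k) : k)| * Real.sqrt (nr r v w) ≤ C * Real.sqrt K ^ (1 / (dg k : ℝ)) :=
    h1.trans (mul_le_mul_of_nonneg_left h3 (by linarith))
  have h5 : nr r v ((u : 𝓞 k) • w) = (|rv v ((u : 𝓞 k) : k)| * Real.sqrt (nr r v w)) ^ 2 := by
    rw [nr_smul, mul_pow, sq_abs, Real.sq_sqrt (nr_pos' r v w hr hw).le]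
  rw [h5]
  exact pow_le_pow_left₀ (by positivity) h4 2

/-- a short vector exists -/
theorem short_vec (hEMB : T_EMB k) (hLOW : T_LOW k) : ∃ C : ℝ, 1 ≤ C ∧ ∀ (r : ℝ) (M : La k), 0 < r →
    ix M ≠ 0 → ∃ u ∈ M, u ≠ 0 ∧ nn r u ≤ C * ix M := by
  classical
  obtain ⟨hcard, hdg, -⟩ := hEMB
  obtain ⟨c, -, hc, -, -, hL⟩ := hLOW
  refine ⟨max 1 (8 ^ dg k * (2 / c ^ 2)), le_max_left _ _, ?_⟩
  intro r M hr hM
  set N : ℕ := ix M with hN
  have hNpos : 0 < N := Nat.pos_of_ne_zero hM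
  have hN0 : (0 : ℝ) < N := by exact_mod_cast hNpos
  have hn0 : (dg k : ℝ) ≠ 0 := by exact_mod_cast hdg.ne'
  set Y : ℝ := (2 * N / c ^ 2) ^ (1 / (dg k : ℝ)) with hY
  have hYpos : 0 < Y := Real.rpow_pos_of_pos (by positivity) _
  have hYn : Y ^ dg k = 2 * N / c ^ 2 := by
    rw [hY, ← Real.rpow_natCast, ← Real.rpow_mul (by positivity), one_div, inv_mul_cancel₀ hn0,
      Real.rpow_one]
  set X : ℝ := Real.sqrt Y with hX
  have hXpos : 0 < X := Real.sqrt_pos.2 hYpos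
  have hX2 : X ^ 2 = Y := Real.sq_sqrt hYpos.le
  have hs : 0 < Real.sqrt r := Real.sqrt_pos.2 hr
  have hs2 : Real.sqrt r ^ 2 = r := Real.sq_sqrt hr.le
  obtain ⟨F1, hF1, -, hc1⟩ := hL (X * Real.sqrt r) (by positivity)
  obtain ⟨F2, hF2, -, hc2⟩ := hL (X / Real.sqrt r) (by positivity)
  have hprod : (N : ℝ) < ((F1 ×ˢ F2).card : ℝ) := by
    rw [Finset.card_product]
    push_cast
    have h1 : (c * (X * Real.sqrt r) ^ dg k) * (c * (X / Real.sqrt r) ^ dg k) ≤
        (F1.card : ℝ) * F2.card := mul_le_mul hc1 hc2 (by positivity) (by positivity)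
    have h2 : (c * (X * Real.sqrt r) ^ dg k) * (c * (X / Real.sqrt r) ^ dg k) = 2 * N := by
      have h3 : (X * Real.sqrt r) * (X / Real.sqrt r) = Y := by
        rw [← hX2]
        field_simp
      calc (c * (X * Real.sqrt r) ^ dg k) * (c * (X / Real.sqrt r) ^ dg k)
          = c ^ 2 * ((X * Real.sqrt r) * (X / Real.sqrt r)) ^ dg k := by
            rw [mul_pow (X * Real.sqrt r)]
            ring
        _ = c ^ 2 * (2 * N / c ^ 2) := by rw [h3, hYn]
        _ = 2 * N := by field_simp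
    linarith
  have hprod' : N < (F1 ×ˢ F2).card := by exact_mod_cast hprod
  have hcardQ : Nat.card (V2 k ⧸ M.toAddSubgroup) = N := rfl
  have : Finite (V2 k ⧸ M.toAddSubgroup) := by
    apply Nat.finite_of_card_ne_zero
    rw [hcardQ]
    exact hM
  have := Fintype.ofFinite (V2 k ⧸ M.toAddSubgroup)
  have hcardQ' : (Finset.univ : Finset (V2 k ⧸ M.toAddSubgroup)).card = N := by
    rw [Finset.card_univ, ← Nat.card_eq_fintype_card, hcardQ]
  obtain ⟨p, hp, q, hq, hpq, heq⟩ := Finset.exists_ne_map_eq_of_card_lt_of_maps_to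
    (f := fun x : V2 k => (QuotientAddGroup.mk x : V2 k ⧸ M.toAddSubgroup))
    (s := F1 ×ˢ F2) (t := Finset.univ) (by rw [hcardQ']; exact hprod') (fun x _ => Finset.mem_univ _)
  have hmem : -p + q ∈ M := by
    have := QuotientAddGroup.eq.1 heq
    exact this
  refine ⟨-p + q, hmem, ?_, ?_⟩
  · intro h0
    apply hpq
    exact (neg_add_eq_zero.1 h0)
  · obtain ⟨hp1, hp2⟩ := Finset.mem_product.1 hp
    obtain ⟨hq1, hq2⟩ := Finset.mem_product.1 hq
    have hb : ∀ v : Pl k, nr r v (-p + q) ≤ 8 * Y := by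
      intro v
      have e1 : (((-p + q).1 : 𝓞 k) : k) = -(p.1 : k) + (q.1 : k) := rfl
      have e2 : (((-p + q).2 : 𝓞 k) : k) = -(p.2 : k) + (q.2 : k) := rfl
      have a1 : |rv v (((-p + q).1 : 𝓞 k) : k)| ≤ 2 * (X * Real.sqrt r) := by
        rw [e1, map_add, map_neg]
        have h1 := hF1 _ hp1 v
        have h2 := hF1 _ hq1 v
        calc |-(rv v (p.1 : k)) + rv v (q.1 : k)| ≤ |-(rv v (p.1 : k))| + |rv v (q.1 : k)| :=
              abs_add_le _ _
          _ ≤ 2 * (X * Real.sqrt r) := by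
              rw [abs_neg]
              linarith
      have a2 : |rv v (((-p + q).2 : 𝓞 k) : k)| ≤ 2 * (X / Real.sqrt r) := by
        rw [e2, map_add, map_neg]
        have h1 := hF2 _ hp2 v
        have h2 := hF2 _ hq2 v
        calc |-(rv v (p.2 : k)) + rv v (q.2 : k)| ≤ |-(rv v (p.2 : k))| + |rv v (q.2 : k)| :=
              abs_add_le _ _
          _ ≤ 2 * (X / Real.sqrt r) := by
              rw [abs_neg]
              linarith
      have b1 : rv v (((-p + q).1 : 𝓞 k) : k) ^ 2 ≤ 4 * Y * r := by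
        rw [← sq_abs]
        calc |rv v (((-p + q).1 : 𝓞 k) : k)| ^ 2 ≤ (2 * (X * Real.sqrt r)) ^ 2 :=
              pow_le_pow_left₀ (abs_nonneg _) a1 2
          _ = 4 * X ^ 2 * Real.sqrt r ^ 2 := by ring
          _ = 4 * Y * r := by rw [hX2, hs2]
      have b2 : rv v (((-p + q).2 : 𝓞 k) : k) ^ 2 ≤ 4 * Y / r := by
        rw [← sq_abs]
        calc |rv v (((-p + q).2 : 𝓞 k) : k)| ^ 2 ≤ (2 * (X / Real.sqrt r)) ^ 2 :=
              pow_le_pow_left₀ (abs_nonneg _) a2 2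
          _ = 4 * X ^ 2 / Real.sqrt r ^ 2 := by ring
          _ = 4 * Y / r := by rw [hX2, hs2]
      unfold nr
      have d1 : rv v (((-p + q).1 : 𝓞 k) : k) ^ 2 / r ≤ 4 * Y := by
        rw [div_le_iff₀ hr]
        exact b1
      have d2 : r * rv v (((-p + q).2 : 𝓞 k) : k) ^ 2 ≤ 4 * Y := by
        calc r * rv v (((-p + q).2 : 𝓞 k) : k) ^ 2 ≤ r * (4 * Y / r) :=
              mul_le_mul_of_nonneg_left b2 hr.le
          _ = 4 * Y := by field_simp
      linarith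
    have hnn0 : ∀ v : Pl k, 0 ≤ nr r v (-p + q) := by
      intro v
      unfold nr
      positivity
    have h1 : nn r (-p + q) ≤ (8 * Y) ^ dg k := by
      unfold nn
      calc ∏ v : Pl k, nr r v (-p + q) ≤ ∏ _v : Pl k, (8 * Y) :=
            Finset.prod_le_prod (fun v _ => hnn0 v) fun v _ => hb v
        _ = (8 * Y) ^ dg k := by
            rw [Finset.prod_const, Finset.card_univ, hcard]
    have h2 : (8 * Y) ^ dg k = 8 ^ dg k * (2 / c ^ 2) * N := by
      rw [mul_pow, hYn]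
      ring
    rw [h2] at h1
    exact h1.trans (mul_le_mul_of_nonneg_right (le_max_right _ _) hN0.le)

end

variable (k : Type) [Field k] [NumberField k] [IsTotallyReal k]

theorem pf_MIN (hEMB : T_EMB k) (hBAL : T_BAL k) (hBXC : T_BXC k) (hLOW : T_LOW k) : T_MIN k := by
  classical
  obtain ⟨C, hC1, hC⟩ := short_vec hEMB hLOW
  refine ⟨C, hC1, ?_⟩
  intro r M hr hM
  obtain ⟨u0, hu0M, hu0, hu0C⟩ := hC r M hr hM
  obtain ⟨B, hB⟩ := bal_vec hBAL r (nn r u0) hr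
  have hT : {u : V2 k | u ∈ M ∧ u ≠ 0 ∧ ∀ v : Pl k, nr r v u ≤ B}.Finite :=
    (fin_bal hEMB hBXC r B hr).subset fun u hu => hu.2.2
  have hsm : ∀ w : V2 k, w ∈ M → w ≠ 0 → nn r w ≤ nn r u0 →
      ∃ w' ∈ {u : V2 k | u ∈ M ∧ u ≠ 0 ∧ ∀ v : Pl k, nr r v u ≤ B}, nn r w' = nn r w := by
    intro w hwM hw hle
    obtain ⟨u, hu⟩ := hB w hw hle
    refine ⟨(u : 𝓞 k) • w, ⟨M.smul_mem _ hwM, ?_, hu⟩, nn_unit hEMB r u w⟩
    intro h0
    apply hw
    have h1 : ((u⁻¹ : (𝓞 k)ˣ) : 𝓞 k) • ((u : 𝓞 k) • w) = w := by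
      rw [smul_smul, Units.inv_mul, one_smul]
    rw [← h1, h0, smul_zero]
  obtain ⟨w0, hw0, hw0e⟩ := hsm u0 hu0M hu0 le_rfl
  obtain ⟨u1, hu1, hmin⟩ := Set.exists_min_image _ (nn r) hT ⟨w0, hw0⟩
  have hle : ∀ u' ∈ M, u' ≠ 0 → nn r u1 ≤ nn r u' := by
    intro u' hu'M hu'
    rcases le_or_gt (nn r u') (nn r u0) with h | h
    · obtain ⟨w', hw', hw'e⟩ := hsm u' hu'M hu' h
      rw [← hw'e]
      exact hmin w' hw'
    · have h1 := hmin w0 hw0
      rw [hw0e] at h1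
      linarith
  have hleast : IsLeast (nn r '' {u | u ∈ M ∧ u ≠ 0}) (nn r u1) := by
    refine ⟨⟨u1, ⟨hu1.1, hu1.2.1⟩, rfl⟩, ?_⟩
    rintro x ⟨u', ⟨h1, h2⟩, rfl⟩
    exact hle u' h1 h2
  have hmn : mn r M = nn r u1 := hleast.csInf_eq
  refine ⟨u1, hu1.1, hu1.2.1, hmn.symm, ?_, ?_⟩
  · intro u' h1 h2
    rw [hmn]
    exact hle u' h1 h2
  · rw [hmn]
    exact (hle u0 hu0M hu0).trans hu0C

end Pool.Agent.H19.CM4
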