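import Pool.Agent.H65.CM4.Targets1

/-!
# Fourth moment over totally real fields, row WSM: the sum of the inverse norms
-/

set_option autoImplicit false

open MeasureTheory Set Filter NumberField NumberField.InfinitePlace Pool.Agent.H65.CM4
open scoped Real

namespace Pool.Agent.H19.CM4

variable (k : Type) [Field k] [NumberField k] [IsTotallyReal k]

theorem pf_WSM (hNW : T_NW k) : T_WSM k := by
  classical
  obtain ⟨C, hC1, hNW⟩ := hNW
  have hl2 : 0 < Real.log 2 := Real.log_pos one_lt_two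
  have hl2' : Real.log 2 < 1 := by
    have := Real.log_two_lt_d9
    linarith
  have hq : 1 ≤ 1 / Real.log 2 := by
    rw [le_div_iff₀ hl2]
    linarith
  refine ⟨2 * C * (1 / Real.log 2), by nlinarith, ?_⟩
  intro R r X F hr hX h
  have hge : ∀ w ∈ F, 1 ≤ nn r w := by
    intro w hw
    have h1 := (hNW R r X F hr (by linarith) h).2 w hw
    exact (one_le_pow₀ hr).trans h1
  set K := Nat.log 2 ⌊X⌋₊ with hK
  have hfl : ⌊X⌋₊ ≠ 0 := by
    have : 1 ≤ ⌊X⌋₊ := Nat.le_floor (by simpa using hX)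
    omega
  have hmap : ∀ w ∈ F, Nat.log 2 ⌊nn r w⌋₊ ∈ Finset.range (K + 1) := by
    intro w hw
    rw [Finset.mem_range]
    exact Nat.lt_succ_of_le (Nat.log_mono_right (Nat.floor_mono (h w hw).2.2))
  rw [← Finset.sum_fiberwise_of_maps_to hmap]
  have hblock : ∀ j ∈ Finset.range (K + 1),
      ∑ w ∈ F.filter (fun w => Nat.log 2 ⌊nn r w⌋₊ = j), 1 / nn r w ≤ 2 * C := by
    intro j _
    have hb : ∀ w ∈ F.filter (fun w => Nat.log 2 ⌊nn r w⌋₊ = j),
        (2 : ℝ) ^ j ≤ nn r w ∧ nn r w ≤ 2 ^ (j + 1) := by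
      intro w hw
      obtain ⟨hw1, hw2⟩ := Finset.mem_filter.1 hw
      have hg := hge w hw1
      have h3 : ⌊nn r w⌋₊ ≠ 0 := by
        have : 1 ≤ ⌊nn r w⌋₊ := Nat.le_floor (by simpa using hg)
        omega
      have h4 : 2 ^ j ≤ ⌊nn r w⌋₊ := by
        rw [← hw2]
        exact Nat.pow_log_le_self 2 h3
      have h5 : ⌊nn r w⌋₊ + 1 ≤ 2 ^ (j + 1) := by
        rw [← hw2]
        exact Nat.lt_pow_succ_log_self one_lt_two _
      have h6 : ((2 ^ j : ℕ) : ℝ) ≤ (⌊nn r w⌋₊ : ℝ) := by exact_mod_cast h4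
      have h7 : ((⌊nn r w⌋₊ + 1 : ℕ) : ℝ) ≤ ((2 ^ (j + 1) : ℕ) : ℝ) := by exact_mod_cast h5
      push_cast at h6 h7
      have h8 : (⌊nn r w⌋₊ : ℝ) ≤ nn r w := Nat.floor_le (by linarith)
      have h9 : nn r w < (⌊nn r w⌋₊ : ℝ) + 1 := Nat.lt_floor_add_one _
      exact ⟨h6.trans h8, h9.le.trans h7⟩
    have hc := (hNW R r (2 ^ (j + 1)) (F.filter (fun w => Nat.log 2 ⌊nn r w⌋₊ = j)) hr
      (by positivity) fun w hw => ⟨(h w (Finset.mem_filter.1 hw).1).1,
        (h w (Finset.mem_filter.1 hw).1).2.1, (hb w hw).2⟩).1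
    have hp : (0 : ℝ) < 2 ^ j := by positivity
    calc ∑ w ∈ F.filter (fun w => Nat.log 2 ⌊nn r w⌋₊ = j), 1 / nn r w
        ≤ ∑ _w ∈ F.filter (fun w => Nat.log 2 ⌊nn r w⌋₊ = j), 1 / (2 : ℝ) ^ j :=
          Finset.sum_le_sum fun w hw => one_div_le_one_div_of_le hp (hb w hw).1
      _ = ((F.filter (fun w => Nat.log 2 ⌊nn r w⌋₊ = j)).card : ℝ) * (1 / (2 : ℝ) ^ j) := by
          rw [Finset.sum_const, nsmul_eq_mul]
      _ ≤ (C * 2 ^ (j + 1)) * (1 / (2 : ℝ) ^ j) :=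
          mul_le_mul_of_nonneg_right hc (by positivity)
      _ = 2 * C := by
          rw [pow_succ]
          field_simp
  have hKR : (K : ℝ) * Real.log 2 ≤ Real.log X := by
    have h3 : 2 ^ K ≤ ⌊X⌋₊ := Nat.pow_log_le_self 2 hfl
    have h4 : ((2 ^ K : ℕ) : ℝ) ≤ (⌊X⌋₊ : ℝ) := by exact_mod_cast h3
    push_cast at h4
    have h5 : (2 : ℝ) ^ K ≤ X := h4.trans (Nat.floor_le (by linarith))
    have h6 := Real.log_le_log (by positivity) h5
    rwa [Real.log_pow] at h6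
  have hC0 : 0 < C := by linarith
  have hK' : (K : ℝ) + 1 ≤ (1 / Real.log 2) * (1 + Real.log X) := by
    rw [div_mul_eq_mul_div, one_mul, le_div_iff₀ hl2]
    nlinarith
  calc ∑ j ∈ Finset.range (K + 1),
        ∑ w ∈ F.filter (fun w => Nat.log 2 ⌊nn r w⌋₊ = j), 1 / nn r w
      ≤ ∑ _j ∈ Finset.range (K + 1), (2 * C) := Finset.sum_le_sum hblock
    _ = ((K : ℝ) + 1) * (2 * C) := by
        rw [Finset.sum_const, Finset.card_range, nsmul_eq_mul]
        push_cast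
        ring
    _ ≤ ((1 / Real.log 2) * (1 + Real.log X)) * (2 * C) :=
        mul_le_mul_of_nonneg_right hK' (by positivity)
    _ = 2 * C * (1 / Real.log 2) * (1 + Real.log X) := by ring

end Pool.Agent.H19.CM4
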